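import Pool.Agent.W343.BSD.KidaFinal

/-!
The bound for the order of vanishing over Galois extensions of prime power degree, for `L`-functions
given as quotients of two polynomials.
-/

set_option autoImplicit false
set_option linter.all false
set_option maxHeartbeats 4000000

open PowerSeries FF Module

namespace Pool.Agent.Y701.QG

open Pool.Agent.W343.BSD

section ext

variable {k K L : Type} [Field k] [Finite k] [Field K] [Algebra k K] [FF.IsFF k K] [Field L]
  [Algebra k L] [Algebra K L] [IsScalarTower k K L] [FF.IsFF k L] [FiniteDimensional K L]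
  [IsGalois K L]

theorem kida_identity_ps {l s : ℕ} [Fact l.Prime] (hn : finrank K L = l ^ s) {a b : K}
    (hΔ : 4 * a ^ 3 + 27 * b ^ 2 ≠ 0) {S : Place k K → Finset (Place k L)}
    {e f : Place k K → ℕ} (D : ∀ v, GaloisFiber v (S v) (e v) (f v)) (B : Finset (Place k K))
    (hB : ∀ v, v ∉ B → e v = 1) :
    redL l (Lfun k a b) ^ l ^ s * ((∏ v ∈ B, locML l v a b ^ l ^ s :
      Polynomial (ZMod l)) : PowerSeries (ZMod l)) =
    redL l (Lfun k (algebraMap K L a) (algebraMap K L b)) *
      ((∏ v ∈ B, ∏ w ∈ S v, locML l w (algebraMap K L a) (algebraMap K L b) :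
        Polynomial (ZMod l)) : PowerSeries (ZMod l)) := by
  classical
  set a' := algebraMap K L a
  set b' := algebraMap K L b
  set Φ : Place k K → PowerSeries (ZMod l) := fun v => ∏ w ∈ S v,
    (locML l w a' b' : PowerSeries (ZMod l)) with hΦ
  set W : Place k K → PowerSeries (ZMod l) :=
    fun v => ∏ _i ∈ Finset.range (l ^ s), (locML l v a b : PowerSeries (ZMod l)) with hW
  have hfpos : ∀ v, 0 < f v := fun v => by
    rcases Nat.eq_zero_or_pos (f v) with h0 | h0
    · have h1 := (D v).mul
      rw [h0, mul_zero, mul_zero] at h1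
      have : 0 < finrank K L := finrank_pos
      omega
    · exact h0
  have hΦ1 : ∀ v, (X : PowerSeries (ZMod l)) ^ v.deg ∣ Φ v - 1 := by
    intro v
    have h := prod_congr_mod (S v) (fun w => (locML l w a' b' : PowerSeries (ZMod l)))
      (fun _ => 1) v.deg (fun w hw => (pow_dvd_pow _ (by
        rw [(D v).deg w hw]
        exact Nat.le_mul_of_pos_right _ (hfpos v))).trans (const_locML l w a' b'))
    rwa [Finset.prod_const_one] at h
  have hW1 : ∀ v, (X : PowerSeries (ZMod l)) ^ v.deg ∣ W v - 1 := by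
    intro v
    have h := prod_congr_mod (Finset.range (l ^ s))
      (fun _ => (locML l v a b : PowerSeries (ZMod l)))
      (fun _ => 1) v.deg (fun w hw => const_locML l v a b)
    rwa [Finset.prod_const_one] at h
  have hgood : ∀ v, v ∉ B → Φ v = W v := by
    intro v hv
    have he := hB v hv
    obtain ⟨j, hj⟩ := fiber_pow (D v) hn
    have h1 : ∀ w ∈ S v, locML l w a' b' = locML l v a b ^ f v := fun w hw =>
      locML_over ((D v).isOver w hw) ((D v).deg w hw) hj hΔ (Or.inl he)
    have h2 : (S v).card * f v = l ^ s := by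
      rw [← hn, ← (D v).mul, he, one_mul]
    show ∏ w ∈ S v, (locML l w a' b' : PowerSeries (ZMod l)) =
      ∏ _i ∈ Finset.range (l ^ s), (locML l v a b : PowerSeries (ZMod l))
    rw [Finset.prod_congr rfl (fun w hw => by rw [h1 w hw]), Finset.prod_const, Finset.prod_const,
      Finset.card_range, ← h2, Polynomial.coe_pow, ← pow_mul, mul_comm (f v)]
  have key := fin_factor' (fun n => places_fin n) hΦ1 hW1 B hgood
  rw [hΦ, euler_fiber D (fun w => const_locML l w a' b')] at key
  rw [hW, eulerProd_prod (fun n => places_fin n) (Finset.range (l ^ s))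
    (fun _ v => (locML l v a b : PowerSeries (ZMod l))) (fun _ v => const_locML l v a b)] at key
  simp only [Finset.prod_const, Finset.card_range] at key
  have hK := lfun_modL (k := k) l a b
  have hL := lfun_modL (k := k) l a' b'
  rw [coe_prod', coe_prod']
  simp only [Polynomial.coe_pow, coe_prod']
  set p : PowerSeries (ZMod l) := redL l (Lfun k a b)
  set EK := eulerProd (fun v : FF.Place k K => v.deg)
      (fun v => (locML l v a b : PowerSeries (ZMod l)))
  set EL := eulerProd (fun v : FF.Place k L => v.deg)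
      (fun v => (locML l v a' b' : PowerSeries (ZMod l)))
  have hKn : p ^ l ^ s * EK ^ l ^ s = 1 := by rw [← mul_pow, hK, one_pow]
  linear_combination p ^ l ^ s * redL l (Lfun k a' b') * key -
    p ^ l ^ s * (∏ v ∈ B, (locML l v a b : PowerSeries (ZMod l)) ^ l ^ s) * hL +
    redL l (Lfun k a' b') * (∏ v ∈ B, ∏ w ∈ S v, (locML l w a' b' : PowerSeries (ZMod l))) * hKn

theorem kida_bound_rat (h6 : (6 : k) ≠ 0) {l s : ℕ} [Fact l.Prime] (hn : finrank K L = l ^ s)
    {a b : K} (hΔ : 4 * a ^ 3 + 27 * b ^ 2 ≠ 0) {S : Place k K → Finset (Place k L)}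
    {e f : Place k K → ℕ} (D : ∀ v, GaloisFiber v (S v) (e v) (f v)) (B : Finset (Place k K))
    (hB : ∀ v, v ∉ B → e v = 1) {U V : Polynomial ℤ} (hV : V.coeff 0 = 1)
    (hP : Lfun k a b * (V : PowerSeries ℤ) = (U : PowerSeries ℤ))
    (x : ZMod l) (Q : Polynomial (ZMod l))
    (hQ : redL l (Lfun k (algebraMap K L a) (algebraMap K L b)) = (Q : PowerSeries (ZMod l))) :
    Q.rootMultiplicity x + l ^ s * (V.map (Int.castRingHom (ZMod l))).rootMultiplicity x ≤
      l ^ s * (U.map (Int.castRingHom (ZMod l))).rootMultiplicity x +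
      ∑ v ∈ B, (l ^ s - l ^ s / e v) * (locML l v a b).rootMultiplicity x := by
  classical
  have hid := kida_identity_ps hn hΔ D B hB
  have hred := congrArg (redL l) hP
  rw [map_mul, redL_poly, redL_poly] at hred
  set U' := U.map (Int.castRingHom (ZMod l)) with hU'
  set V' := V.map (Int.castRingHom (ZMod l)) with hV'
  have hid2 : ((U' ^ l ^ s * ∏ v ∈ B, locML l v a b ^ l ^ s : Polynomial (ZMod l)) :
      PowerSeries (ZMod l)) = ((Q * (∏ v ∈ B, ∏ w ∈ S v, locML l w (algebraMap K L a)
        (algebraMap K L b)) * V' ^ l ^ s : Polynomial (ZMod l)) : PowerSeries (ZMod l)) := by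
    rw [Polynomial.coe_mul, Polynomial.coe_mul, Polynomial.coe_mul, Polynomial.coe_pow,
      Polynomial.coe_pow, ← hred, ← hQ, ← hid, mul_pow]
    ring
  have hid' := Polynomial.coe_injective _ hid2
  have hV0 : V' ≠ 0 := by
    intro h
    have h1 := congrArg (fun p => Polynomial.coeff p 0) h
    simp only [hV', Polynomial.coeff_map, hV, Polynomial.coeff_zero, map_one] at h1
    exact one_ne_zero h1
  have hU0 : U' ≠ 0 := by
    intro h
    rw [h, Polynomial.coe_zero] at hred
    rcases mul_eq_zero.1 hred with h2 | h2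
    · have h1 := lfun_modL (k := k) l a b
      rw [h2, zero_mul] at h1
      exact zero_ne_one h1
    · exact hV0 ((Polynomial.coe_eq_zero_iff).1 h2)
  have hQ0 : Q ≠ 0 := by
    intro h
    have h1 := lfun_modL (k := k) l (algebraMap K L a) (algebraMap K L b)
    rw [hQ, h, Polynomial.coe_zero, zero_mul] at h1
    exact zero_ne_one h1
  have hpne : ∀ v ∈ B, locML l v a b ^ l ^ s ≠ 0 := fun v _ => pow_ne_zero _ (locML_ne l v a b)
  have hwne : ∀ v ∈ B, ∏ w ∈ S v, locML l w (algebraMap K L a) (algebraMap K L b) ≠ 0 :=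
    fun v _ => Finset.prod_ne_zero_iff.2 fun w _ => locML_ne l w _ _
  have hmu := congrArg (Polynomial.rootMultiplicity x) hid'
  rw [rm_mul x (pow_ne_zero _ hU0) (Finset.prod_ne_zero_iff.2 hpne), rm_pow x hU0,
    rm_prod x _ _ hpne, rm_mul x (mul_ne_zero hQ0 (Finset.prod_ne_zero_iff.2 hwne))
      (pow_ne_zero _ hV0), rm_mul x hQ0 (Finset.prod_ne_zero_iff.2 hwne), rm_prod x _ _ hwne,
    rm_pow x hV0] at hmu
  have h27 : ∀ v : Place k K, (27 : v.RF) ≠ 0 := by
    intro v h
    have h3 : (3 : v.RF) ≠ 0 := by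
      have := ne_RF v (three_ne h6)
      exact_mod_cast this
    apply h3
    have : (3 : v.RF) ^ 3 = 0 := by
      rw [← h]; norm_num
    exact pow_eq_zero_iff three_ne_zero |>.1 this
  have hloc : ∀ v ∈ B, l ^ s / e v * (locML l v a b).rootMultiplicity x ≤
      (∏ w ∈ S v, locML l w (algebraMap K L a) (algebraMap K L b)).rootMultiplicity x := by
    intro v hv
    by_cases hcase : v.red (minA v a b) ≠ 0 ∨ v.red (minDisc v a b) ≠ 0
    · obtain ⟨j, hj⟩ := fiber_pow (D v) hn
      have h1 : ∀ w ∈ S v, locML l w (algebraMap K L a) (algebraMap K L b) =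
          locML l v a b ^ f v := fun w hw =>
        locML_over ((D v).isOver w hw) ((D v).deg w hw) hj hΔ (Or.inr hcase)
      rw [Finset.prod_congr rfl h1, Finset.prod_const, ← pow_mul, rm_pow x (locML_ne l v a b)]
      apply Nat.mul_le_mul_right
      have hmul := (D v).mul
      rw [hn] at hmul
      have he : 0 < e v := by
        rcases Nat.eq_zero_or_pos (e v) with h0 | h0
        · rw [h0, zero_mul, mul_zero] at hmul
          exact absurd hmul.symm (pow_ne_zero s (Fact.out : l.Prime).ne_zero)
        · exact h0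
      rw [← hmul, show (S v).card * (e v * f v) = e v * (f v * (S v).card) by ring,
        Nat.mul_div_cancel_left _ he]
    · push Not at hcase
      rw [locML_add l v hΔ (h27 v) hcase.1 hcase.2, rm_one, mul_zero]
      exact Nat.zero_le _
  have hle : ∀ v ∈ B, (l ^ s - l ^ s / e v) * (locML l v a b).rootMultiplicity x =
      l ^ s * (locML l v a b).rootMultiplicity x -
        l ^ s / e v * (locML l v a b).rootMultiplicity x := fun v _ => Nat.sub_mul _ _ _
  have hsum : ∑ v ∈ B, (locML l v a b ^ l ^ s).rootMultiplicity x ≤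
      ∑ v ∈ B, (l ^ s - l ^ s / e v) * (locML l v a b).rootMultiplicity x +
      ∑ v ∈ B, (∏ w ∈ S v,
        locML l w (algebraMap K L a) (algebraMap K L b)).rootMultiplicity x := by
    rw [← Finset.sum_add_distrib]
    refine Finset.sum_le_sum fun v hv => ?_
    rw [rm_pow x (locML_ne l v a b)]
    have h1 := hloc v hv
    have h2 := hle v hv
    omega
  omega

end ext

section final

variable {k K k' L : Type} [Field k] [Finite k] [Field K] [Algebra k K] [FF.IsFF k K]
  [Field k'] [Finite k'] [Field L] [Algebra k' L] [Algebra k k'] [Algebra k L] [Algebra K L]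
  [IsScalarTower k K L] [IsScalarTower k k' L] [FF.IsFF k L] [FF.IsFF k' L]
  [FiniteDimensional K L] [IsGalois K L]

theorem kida_rat (h6 : (6 : k) ≠ 0)
    (hconst : ∀ a : K, IsAlgebraic k a → a ∈ (algebraMap k K).range)
    {l s : ℕ} [hl : Fact l.Prime] (hlk : (l : k) ≠ 0) (hn : finrank K L = l ^ s) {a b : K}
    (hΔ : 4 * a ^ 3 + 27 * b ^ 2 ≠ 0) {e : Place k K → ℕ}
    (he : ∀ (v : Place k K) (w : Place k L) (n : ℕ), Over w v n → n = e v)
    (B : Finset (Place k K)) (hB : ∀ v, v ∉ B → e v = 1) {U V : Polynomial ℤ}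
    (hV : V.coeff 0 = 1) (hP : Lfun k a b * (V : PowerSeries ℤ) = (U : PowerSeries ℤ)) (m : ℕ)
    (G : Polynomial ℤ) (hG : Lfun k' (algebraMap K L a) (algebraMap K L b) =
      (((1 - Polynomial.C (Nat.card k' : ℤ) * Polynomial.X) ^ m * G : Polynomial ℤ) :
        PowerSeries ℤ)) :
    finrank k k' * m + finrank K L *
        (V.map (Int.castRingHom (ZMod l))).rootMultiplicity ((Nat.card k : ℕ) : ZMod l)⁻¹ ≤
      finrank K L *
        (U.map (Int.castRingHom (ZMod l))).rootMultiplicity ((Nat.card k : ℕ) : ZMod l)⁻¹ +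
      ∑ v ∈ B, (finrank K L - finrank K L / e v) *
        (locML l v a b).rootMultiplicity ((Nat.card k : ℕ) : ZMod l)⁻¹ := by
  classical
  have hD := fun v : Place k K => exists_galoisFiber (L := L) v
  choose S e' f D using hD
  have hee : ∀ v, e' v = e v := fun v => by
    obtain ⟨w, hw⟩ := (D v).nonempty
    exact he v w _ ((D v).isOver w hw)
  obtain rfl : e' = e := funext hee
  have : FiniteDimensional k k' := Module.Finite.of_finite
  have hr : finrank k k' ≠ 0 := finrank_pos.ne'
  obtain ⟨i, hi⟩ := constants_pow (L := L) hconst hn hr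
  have hq0 := card_ne_zero_mod (k := k) hlk
  set q : ZMod l := ((Nat.card k : ℕ) : ZMod l) with hq
  have hrel := lfun_rel (k := k) (k' := k') hr (algebraMap K L a) (algebraMap K L b)
  rw [hG, ← coe_expand] at hrel
  set Q0 : Polynomial ℤ := Polynomial.expand ℤ (finrank k k')
    ((1 - Polynomial.C (Nat.card k' : ℤ) * Polynomial.X) ^ m * G) with hQ0
  have hQ : redL l (Lfun k (algebraMap K L a) (algebraMap K L b)) =
      ((Q0.map (Int.castRingHom (ZMod l)) : Polynomial (ZMod l)) : PowerSeries (ZMod l)) := by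
    rw [hrel, redL_poly]
  have hbound := kida_bound_rat h6 hn hΔ D B hB hV hP q⁻¹ _ hQ
  have hQne : Q0.map (Int.castRingHom (ZMod l)) ≠ 0 := by
    intro h
    have h1 := lfun_modL (k := k) l (algebraMap K L a) (algebraMap K L b)
    rw [hQ, h, Polynomial.coe_zero, zero_mul] at h1
    exact zero_ne_one h1
  have hcard : ((Nat.card k' : ℕ) : ZMod l) = q ^ finrank k k' := by
    rw [Module.natCard_eq_pow_finrank (K := k) (V := k'), hq]
    push_cast
    rfl
  have hex : ExpChar (Polynomial (ZMod l)) l := inferInstance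
  have hQeq : Q0.map (Int.castRingHom (ZMod l)) =
      (1 - Polynomial.C q * Polynomial.X) ^ (finrank k k' * m) *
        (Polynomial.expand (ZMod l) (finrank k k') (G.map (Int.castRingHom (ZMod l)))) := by
    rw [hQ0, map_mul, map_pow, map_sub, map_one, map_mul, Polynomial.expand_C, Polynomial.expand_X,
      Polynomial.map_mul, Polynomial.map_pow, Polynomial.map_sub, Polynomial.map_one,
      Polynomial.map_mul, Polynomial.map_C, Polynomial.map_pow, Polynomial.map_X,
      Polynomial.map_expand]
    have h1 : (Int.castRingHom (ZMod l)) (Nat.card k' : ℤ) = q ^ finrank k k' := by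
      rw [eq_intCast, Int.cast_natCast, hcard]
    rw [h1, pow_mul, hi, sub_pow_expChar_pow, one_pow, mul_pow, Polynomial.C_pow]
  rw [hQeq] at hbound hQne
  have hlin : (1 - Polynomial.C q * Polynomial.X : Polynomial (ZMod l)) ≠ 0 := by
    intro h
    have h1 := congrArg (Polynomial.eval 0) h
    simp at h1
  rw [rm_mul _ (left_ne_zero_of_mul hQne) (right_ne_zero_of_mul hQne), rm_pow _ hlin,
    rm_linear hq0, mul_one] at hbound
  rw [hn]
  omega

end final

end Pool.Agent.Y701.QG
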