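import Pool.Agent.Y701.QG.Exact
import Pool.Agent.Y701.QG.Kida
import Pool.Agent.Y701.R1.Ram
import Pool.Agent.TH943.KD.Kd

/-!
Multiplicities modulo a prime and the bound in Galois extensions of prime power degree.
-/

set_option autoImplicit false
set_option linter.all false
set_option maxHeartbeats 1000000

open Polynomial FF Module

namespace Pool.Agent.Y701.QG

open Pool.Agent.W343.BSD Pool.Agent.W309.RF Pool.Agent.Y701.CB Pool.Agent.Y701.QF

/-- The multiplicity modulo `ℓ` of the zero `1 / q` of `1 - ε (q T) ^ d`: the largest power of `ℓ`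
dividing `d` if `ε = 1`, or if `ε = -1` and `ℓ = 2`, and `0` otherwise. -/
def mu (ℓ : ℕ) (ε : ℤ) (d : ℕ) : ℕ :=
  if ε = 1 ∨ (ε = -1 ∧ ℓ = 2) then ℓ ^ padicValNat ℓ d else 0

section mult

variable {ℓ : ℕ} [hl : Fact ℓ.Prime]

theorem eps_cases {k : Type} [Field k] (f h P : k[X]) :
    eps f h P = 0 ∨ eps f h P = 1 ∨ eps f h P = -1 := by
  unfold eps sgn
  split_ifs <;> simp

theorem rm_one_sub {q : ZMod ℓ} (hq : q ≠ 0) {d : ℕ} (hd : d ≠ 0) :
    (1 - C (q ^ d) * X ^ d : (ZMod ℓ)[X]).rootMultiplicity q⁻¹ = ℓ ^ padicValNat ℓ d := by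
  obtain ⟨a, m, hm, hdm⟩ := Nat.exists_eq_pow_mul_and_not_dvd hd ℓ hl.out.ne_one
  have hm0 : ((m : ℕ) : ZMod ℓ) ≠ 0 := by
    intro h
    rw [ZMod.natCast_eq_zero_iff] at h
    exact hm h
  have hmne : m ≠ 0 := by
    rintro rfl
    exact hm (dvd_zero _)
  have hval : padicValNat ℓ d = a := by
    rw [hdm, padicValNat.mul (pow_ne_zero _ hl.out.ne_zero) hmne, padicValNat.prime_pow,
      padicValNat.eq_zero_of_not_dvd hm, add_zero]
  have hex : ExpChar (Polynomial (ZMod ℓ)) ℓ := inferInstance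
  have e1 : (1 - C (q ^ d) * X ^ d : (ZMod ℓ)[X]) = (1 - C (q ^ m) * X ^ m) ^ ℓ ^ a := by
    rw [sub_pow_expChar_pow, one_pow, mul_pow, ← C_pow, ← pow_mul, ← pow_mul, hdm,
      mul_comm (ℓ ^ a) m]
  have e2 : (1 - C (q ^ m) * X ^ m : (ZMod ℓ)[X]) =
      C (-(q ^ m)) * (X ^ m - C (q⁻¹ ^ m)) := by
    rw [mul_sub, ← C_mul, neg_mul, ← mul_pow, mul_inv_cancel₀ hq, one_pow, C_neg, C_neg, C_1]
    ring
  have hne2 : (X ^ m - C (q⁻¹ ^ m) : (ZMod ℓ)[X]) ≠ 0 :=
    X_pow_sub_C_ne_zero (Nat.pos_of_ne_zero hmne) _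
  have hne1 : (C (-(q ^ m)) : (ZMod ℓ)[X]) ≠ 0 := C_ne_zero.2 (neg_ne_zero.2 (pow_ne_zero _ hq))
  rw [e1, rm_pow _ (by rw [e2]; exact mul_ne_zero hne1 hne2), e2, rm_mul _ hne1 hne2,
    rootMultiplicity_C, rm_sub_pow hm0 (inv_ne_zero hq), zero_add, mul_one, hval]

/-- the multiplicity of a factor -/
theorem rm_factor {q : ℤ} (hq : (q : ZMod ℓ) ≠ 0) {ε : ℤ} (hε : ε = 0 ∨ ε = 1 ∨ ε = -1) {d : ℕ}
    (hd : d ≠ 0) : ((1 - C (ε * q ^ d) * X ^ d : ℤ[X]).map (Int.castRingHom (ZMod ℓ))) ≠ 0 ∧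
    ((1 - C (ε * q ^ d) * X ^ d : ℤ[X]).map (Int.castRingHom (ZMod ℓ))).rootMultiplicity
      (q : ZMod ℓ)⁻¹ = mu ℓ ε d := by
  have e : ((1 - C (ε * q ^ d) * X ^ d : ℤ[X]).map (Int.castRingHom (ZMod ℓ))) =
      1 - C ((ε : ZMod ℓ) * (q : ZMod ℓ) ^ d) * X ^ d := by
    rw [Polynomial.map_sub, Polynomial.map_one, Polynomial.map_mul, Polynomial.map_pow,
      Polynomial.map_X, Polynomial.map_C]
    simp
  have h0 : (1 - C ((ε : ZMod ℓ) * (q : ZMod ℓ) ^ d) * X ^ d : (ZMod ℓ)[X]) ≠ 0 := by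
    intro h
    have h1 := congrArg (Polynomial.eval 0) h
    simp [hd] at h1
  rw [e]
  refine ⟨h0, ?_⟩
  unfold mu
  rcases hε with rfl | rfl | rfl
  · rw [if_neg (by norm_num)]
    rw [Int.cast_zero, zero_mul, C_0, zero_mul, sub_zero, ← C_1, rootMultiplicity_C]
  · rw [if_pos (Or.inl rfl), Int.cast_one, one_mul, rm_one_sub hq hd]
  · by_cases h2 : ℓ = 2
    · rw [if_pos (Or.inr ⟨rfl, h2⟩)]
      subst h2
      have : ((-1 : ℤ) : ZMod 2) = 1 := by
        rw [Int.cast_neg, Int.cast_one]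
        exact ZMod.neg_eq_self_mod_two 1
      rw [this, one_mul, rm_one_sub hq hd]
    · rw [if_neg (by
        rintro (h | ⟨-, h⟩)
        · norm_num at h
        · exact h2 h)]
      apply rm_eq_zero
      rw [eval_sub, eval_one, eval_mul, eval_C, eval_pow, eval_X, mul_assoc, ← mul_pow,
        mul_inv_cancel₀ hq, one_pow, mul_one]
      push_cast
      intro h
      have h3 : (2 : ZMod ℓ) = 0 := by linear_combination h
      have h4 : ((2 : ℕ) : ZMod ℓ) = 0 := by exact_mod_cast h3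
      rw [ZMod.natCast_eq_zero_iff] at h4
      exact h2 ((Nat.prime_dvd_prime_iff_eq hl.out Nat.prime_two).1 h4)


theorem sgn_cases {k : Type} [Field k] (P r : k[X]) :
    sgn P r = 0 ∨ sgn P r = 1 ∨ sgn P r = -1 := by
  unfold sgn
  split_ifs <;> simp

theorem sig_cases {k : Type} [Field k] (f g h R : k[X]) :
    sig f g h R = 0 ∨ sig f g h R = 1 ∨ sig f g h R = -1 := by
  unfold sig
  split_ifs
  · exact sgn_cases _ _
  · exact Or.inl rfl
  · exact sgn_cases _ _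
  · exact Or.inl rfl

/-- the multiplicity of a product -/
theorem rm_prodF {k : Type} [Field k] {q : ℤ} (hq : (q : ZMod ℓ) ≠ 0) {S : Finset k[X]}
    (hdeg : ∀ P ∈ S, P.natDegree ≠ 0) {c : k[X] → ℤ} (hc : ∀ P, c P = 0 ∨ c P = 1 ∨ c P = -1) :
    ((prodF q S c).map (Int.castRingHom (ZMod ℓ))) ≠ 0 ∧
    ((prodF q S c).map (Int.castRingHom (ZMod ℓ))).rootMultiplicity (q : ZMod ℓ)⁻¹ =
      ∑ P ∈ S, mu ℓ (c P) P.natDegree := by
  unfold prodF
  rw [Polynomial.map_prod]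
  have hn : ∀ P ∈ S, ((1 - C (c P * q ^ P.natDegree) * X ^ P.natDegree :
      ℤ[X]).map (Int.castRingHom (ZMod ℓ))) ≠ 0 := fun P hP =>
    (rm_factor hq (hc P) (hdeg P hP)).1
  refine ⟨Finset.prod_ne_zero_iff.2 hn, ?_⟩
  rw [rm_prod _ _ _ hn,
    Finset.sum_congr rfl fun P hP => (rm_factor hq (hc P) (hdeg P hP)).2]

theorem rm_lin {q : ℤ} (hq : (q : ZMod ℓ) ≠ 0) {ε : ℤ} (hε : ε = 0 ∨ ε = 1 ∨ ε = -1) :
    ((1 - C (ε * q) * X : ℤ[X]).map (Int.castRingHom (ZMod ℓ))) ≠ 0 ∧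
    ((1 - C (ε * q) * X : ℤ[X]).map (Int.castRingHom (ZMod ℓ))).rootMultiplicity
      (q : ZMod ℓ)⁻¹ = mu ℓ ε 1 := by
  have h := rm_factor hq hε (d := 1) one_ne_zero
  rwa [pow_one, pow_one] at h

end mult

section values

variable {k : Type} [Field k] [Fintype k] [DecidableEq k]

theorem si_values (h : k[X]) : si h = 0 ∨ si h = 1 ∨ si h = -1 := by
  have h1 : ∀ c : k, quadraticChar k c = 0 ∨ quadraticChar k c = 1 ∨ quadraticChar k c = -1 := by
    intro c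
    by_cases hc : c = 0
    · left; rw [hc, MulChar.map_zero]
    · exact Or.inr (quadraticChar_dichotomy hc)
  unfold si sq3
  split_ifs
  · exact h1 _
  · exact Or.inl rfl
  · exact h1 _
  · exact Or.inl rfl
  · exact Or.inl rfl

end values

section bound

variable {k k' L : Type} [Field k] [Finite k] [Fintype k] [DecidableEq k]
  [Field k'] [Finite k'] [Field L] [Algebra k' L] [Algebra k k'] [Algebra k L]
  [Algebra (RatFunc k) L] [IsScalarTower k (RatFunc k) L] [IsScalarTower k k' L] [FF.IsFF k L]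
  [FF.IsFF k' L] [FiniteDimensional (RatFunc k) L] [IsGalois (RatFunc k) L]

/-- the bound for the order of vanishing -/
theorem bound (h6 : (6 : k) ≠ 0) {f g h : k[X]} (hG : Good f g h) {S₁ T₁ : Finset k[X]}
    (hS : ∀ P, P ∈ S₁ ↔ P.Monic ∧ Irreducible P ∧ P ∣ g ^ 2 - f * h)
    (hT : ∀ P, P ∈ T₁ ↔ P.Monic ∧ Irreducible P ∧ P ∣ co f g h 3) {l s : ℕ}
    [hl : Fact l.Prime] (hlk : (l : k) ≠ 0) (hn : finrank (RatFunc k) L = l ^ s)
    {e : Place k (RatFunc k) → ℕ}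
    (he : ∀ (v : Place k (RatFunc k)) (w : Place k L) (n : ℕ), Over w v n → n = e v)
    (B : Finset (Place k (RatFunc k))) (hB : ∀ v, v ∉ B → e v = 1) (m : ℕ)
    (hm : S.VanishesTo k' (algebraMap (RatFunc k) L (A (PA f g h)))
      (algebraMap (RatFunc k) L (A (PB f g h))) m) :
    finrank k k' * m + finrank (RatFunc k) L * (mu l (si h) 1 +
        ∑ R ∈ T₁, mu l (sig f g h R) R.natDegree) ≤
      finrank (RatFunc k) L * ∑ P ∈ S₁, mu l (eps f h P) P.natDegree +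
      ∑ v ∈ B, (finrank (RatFunc k) L - finrank (RatFunc k) L / e v) *
        ((S.locFactor v (A (PA f g h)) (A (PB f g h))).map
          (Int.castRingHom (ZMod l))).rootMultiplicity ((Nat.card k : ℕ) : ZMod l)⁻¹ := by
  obtain ⟨G, hGm⟩ := hm
  have hq : (((Nat.card k : ℤ)) : ZMod l) ≠ 0 := by
    have := card_ne_zero_mod (k := k) hlk
    rwa [Int.cast_natCast]
  have hdegS : ∀ P ∈ S₁, P.natDegree ≠ 0 := fun P hP => ((hS P).1 hP).2.1.natDegree_pos.ne'
  have hdegT : ∀ P ∈ T₁, P.natDegree ≠ 0 := fun P hP => ((hT P).1 hP).2.1.natDegree_pos.ne'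
  have hΔL : 4 * (algebraMap (RatFunc k) L (A (PA f g h))) ^ 3 +
      27 * (algebraMap (RatFunc k) L (A (PB f g h))) ^ 2 ≠ 0 := by
    have e1 : 4 * (algebraMap (RatFunc k) L (A (PA f g h))) ^ 3 +
        27 * (algebraMap (RatFunc k) L (A (PB f g h))) ^ 2 =
        algebraMap (RatFunc k) L (4 * A (PA f g h) ^ 3 + 27 * A (PB f g h) ^ 2) := by
      simp only [map_add, map_mul, map_pow, map_ofNat]
    rw [e1]
    exact (_root_.map_ne_zero _).2 hG.hΔ
  rw [S.lfun_eq hΔL] at hGm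
  have hV : ((1 - C (si h * (Nat.card k : ℤ)) * X) *
      prodF (Nat.card k : ℤ) T₁ (sig f g h) : ℤ[X]).coeff 0 = 1 := by
    rw [mul_coeff_zero]
    have e1 : (prodF (Nat.card k : ℤ) T₁ (sig f g h)).coeff 0 = 1 := by
      unfold prodF
      rw [coeff_zero_eq_eval_zero, eval_prod]
      refine Finset.prod_eq_one fun P hP => ?_
      simp [hdegT P hP]
    rw [e1]
    simp
  have h1 := kida_rat (k' := k') (L := L) h6 const_rat hlk hn hG.hΔ he B hB hV
    (exact_lfun h6 hG hS hT) m G hGm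
  obtain ⟨nS, mS⟩ := rm_prodF hq hdegS (eps_cases f h)
  obtain ⟨nT, mT⟩ := rm_prodF hq hdegT (sig_cases f g h)
  obtain ⟨n1, m1⟩ := rm_lin hq (si_values h)
  rw [Polynomial.map_mul, rm_mul _ n1 nT] at h1
  rw [Int.cast_natCast] at mS mT m1
  rw [mS, mT, m1] at h1
  have h3 : ∀ v ∈ B, (finrank (RatFunc k) L - finrank (RatFunc k) L / e v) *
        ((S.locFactor v (A (PA f g h)) (A (PB f g h))).map
          (Int.castRingHom (ZMod l))).rootMultiplicity ((Nat.card k : ℕ) : ZMod l)⁻¹ =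
      (finrank (RatFunc k) L - finrank (RatFunc k) L / e v) *
        (locML l v (A (PA f g h)) (A (PB f g h))).rootMultiplicity
          ((Nat.card k : ℕ) : ZMod l)⁻¹ := by
    intro v _
    rw [S.locFactor_eq v hG.hΔ]
    rfl
  rw [Finset.sum_congr rfl h3]
  exact h1

end bound

end Pool.Agent.Y701.QG
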