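import Pool.Agent.Y701.QG.Fam2

/-!
The zeros of a polynomial in an extension of the constants and the quadratic characters of the
closed points.
-/

set_option autoImplicit false
set_option linter.all false
set_option maxHeartbeats 1000000

open Polynomial FF Module

namespace Pool.Agent.Y701.QG

open Pool.Agent.W343.BSD Pool.Agent.W309.RF Pool.Agent.Y701.CB Pool.Agent.Y701.QF

open Classical in
/-- The quadratic character of `r` modulo the irreducible polynomial `P`. -/
noncomputable def sgn {k : Type} [Field k] (P r : k[X]) : ℤ :=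
  if P ∣ r then 0 else if ∃ s : k[X], P ∣ r - s ^ 2 then 1 else -1

open Classical in
/-- The sign `ε_P`: the quadratic character of `h`, or of `f` if `P` divides `h`. -/
noncomputable def eps {k : Type} [Field k] (f h P : k[X]) : ℤ :=
  if P ∣ h then sgn P f else sgn P h

open Classical in
/-- The sign `σ_R` of `F(x, t)` modulo the irreducible polynomial `R` dividing the coefficient of
`x ^ 3`: it is `0` unless `F(x, t)` is modulo `R` a constant `c` times the square of a polynomial in
`x`, and then it is the quadratic character of `c`. -/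
noncomputable def sig {k : Type} [Field k] (f g h R : k[X]) : ℤ :=
  if R ∣ co f g h 2 then (if R ∣ co f g h 1 then sgn R (co f g h 0) else 0)
  else (if R ∣ co f g h 1 ^ 2 - 4 * co f g h 0 * co f g h 2 then sgn R (co f g h 2) else 0)

section roots

variable {k k' : Type} [Field k] [Finite k] [Field k'] [Fintype k'] [DecidableEq k'] [Algebra k k']

/-- the character at a zero of `P` -/
theorem qc_root (h2 : (2 : k) ≠ 0) {P : k[X]} (hP : Irreducible P) {y : k'} (hy : aeval y P = 0)
    (r : k[X]) : P.natDegree ∣ finrank k k' ∧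
      quadraticChar k' (aeval y r) = sgn P r ^ (finrank k k' / P.natDegree) := by
  classical
  haveI : Fact (Irreducible P) := ⟨hP⟩
  have hfd : FiniteDimensional k (AdjoinRoot P) := (AdjoinRoot.powerBasis hP.ne_zero).finite
  have : Finite (AdjoinRoot P) := Module.finite_of_finite k
  letI : Fintype (AdjoinRoot P) := Fintype.ofFinite _
  let φ : AdjoinRoot P →+* k' := AdjoinRoot.lift (algebraMap k k') y (by
    rw [← aeval_def]; exact hy)
  letI : Algebra (AdjoinRoot P) k' := φ.toAlgebra
  have htow : IsScalarTower k (AdjoinRoot P) k' := IsScalarTower.of_algebraMap_eq fun x => by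
    show _ = φ (AdjoinRoot.of P x)
    rw [AdjoinRoot.lift_of]
  have hdim : finrank k (AdjoinRoot P) = P.natDegree := by
    rw [(AdjoinRoot.powerBasis hP.ne_zero).finrank, AdjoinRoot.powerBasis_dim]
  have hmul := Module.finrank_mul_finrank k (AdjoinRoot P) k'
  rw [hdim] at hmul
  have hpos := hP.natDegree_pos
  have hfin : Module.Finite (AdjoinRoot P) k' := Module.Finite.of_finite
  have hd : finrank k k' / P.natDegree = finrank (AdjoinRoot P) k' := by
    rw [← hmul, Nat.mul_div_cancel_left _ hpos]
  refine ⟨⟨_, hmul.symm⟩, ?_⟩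
  have h2' : (2 : AdjoinRoot P) ≠ 0 := two_ne_ext (F := k) h2
  have e1 : aeval y r = algebraMap (AdjoinRoot P) k' (AdjoinRoot.mk P r) := by
    show _ = φ _
    rw [AdjoinRoot.lift_mk, aeval_def]
  rw [e1, hd]
  have hpos' : finrank (AdjoinRoot P) k' ≠ 0 := finrank_pos.ne'
  unfold sgn
  by_cases hr : P ∣ r
  · rw [if_pos hr, AdjoinRoot.mk_eq_zero.2 hr, map_zero, MulChar.map_zero, zero_pow hpos']
  · have hne : AdjoinRoot.mk P r ≠ 0 := fun h => hr (AdjoinRoot.mk_eq_zero.1 h)
    rw [if_neg hr, chi_ext h2' hne]
    congr 1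
    split_ifs with hs
    · obtain ⟨s, hs⟩ := hs
      rw [quadraticChar_one_iff_isSquare hne]
      refine ⟨AdjoinRoot.mk P s, ?_⟩
      have h3 := AdjoinRoot.mk_eq_zero.2 hs
      rw [map_sub, map_pow, sub_eq_zero, sq] at h3
      exact h3
    · rw [quadraticChar_neg_one_iff_not_isSquare]
      rintro ⟨z, hz⟩
      obtain ⟨s, rfl⟩ := AdjoinRoot.mk_surjective z
      apply hs
      refine ⟨s, ?_⟩ |> fun h => h
      apply AdjoinRoot.mk_eq_zero.1
      rw [map_sub, map_pow, hz, sq, sub_self]

open Classical in
/-- the number of zeros of an irreducible polynomial -/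
theorem card_roots {P : k[X]} (hP : Irreducible P) (hm : P.Monic) :
    (Finset.univ.filter fun y : k' => minpoly k y = P).card =
      if P.natDegree ∣ finrank k k' then P.natDegree else 0 := by
  have hfd : FiniteDimensional k k' := Module.Finite.of_finite
  have hmin : ∀ y : k', minpoly k y = P ↔ aeval y P = 0 := by
    intro y
    constructor
    · rintro rfl
      exact minpoly.aeval k y
    · intro h
      exact (minpoly.eq_of_irreducible_of_monic hP h hm).symm
  split_ifs with hd
  · have h1 := (hP.natDegree_dvd_iff_dvd_X_pow_card_pow_sub_X (n := finrank k k')).1 hd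
    have hcard : Nat.card k ^ finrank k k' = Fintype.card k' := by
      rw [← Module.natCard_eq_pow_finrank (K := k) (V := k'), Nat.card_eq_fintype_card]
    rw [hcard] at h1
    have h2 : P.map (algebraMap k k') ∣ X ^ Fintype.card k' - X := by
      have := Polynomial.map_dvd (algebraMap k k') h1
      simpa using this
    have h3 : (X ^ Fintype.card k' - X : k'[X]) ≠ 0 :=
      FiniteField.X_pow_card_sub_X_ne_zero k' Fintype.one_lt_card
    have h4 := FiniteField.roots_X_pow_card_sub_X k'
    have hsplit0 : (X ^ Fintype.card k' - X : k'[X]).Splits := by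
      rw [splits_iff_card_roots, h4, FiniteField.X_pow_card_sub_X_natDegree_eq k'
        Fintype.one_lt_card]
      rfl
    have hsplit : (P.map (algebraMap k k')).Splits := hsplit0.of_dvd h3 h2
    have hP0 : P.map (algebraMap k k') ≠ 0 := (hm.map _).ne_zero
    have hle : (P.map (algebraMap k k')).roots ≤ Finset.univ.val := by
      rw [← h4]
      exact Polynomial.roots.le_of_dvd h3 h2
    have hnd : (P.map (algebraMap k k')).roots.Nodup :=
      Multiset.nodup_of_le hle Finset.univ.nodup
    have hset : (Finset.univ.filter fun y : k' => minpoly k y = P) =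
        (P.map (algebraMap k k')).roots.toFinset := by
      ext y
      rw [Finset.mem_filter, Multiset.mem_toFinset, mem_roots hP0, IsRoot.def,
        eval_map_algebraMap, hmin]
      exact ⟨fun h => h.2, fun h => ⟨Finset.mem_univ _, h⟩⟩
    rw [hset, Multiset.toFinset_card_of_nodup hnd, splits_iff_card_roots.1 hsplit,
      natDegree_map]
  · rw [Finset.card_eq_zero, Finset.filter_eq_empty_iff]
    intro y _ hy
    apply hd
    rw [← hy, ← IntermediateField.adjoin.finrank (Algebra.IsIntegral.isIntegral y)]
    exact ⟨_, (Module.finrank_mul_finrank k (IntermediateField.adjoin k {y}) k').symm⟩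

open Classical in
/-- the sum over the zeros of a polynomial -/
theorem sum_roots_gen {D : k[X]} (hD : D ≠ 0) {S : Finset k[X]}
    (hS : ∀ P, P ∈ S ↔ P.Monic ∧ Irreducible P ∧ P ∣ D) (u : k' → ℤ) (c : k[X] → ℤ)
    (huc : ∀ (P : k[X]), Irreducible P → P.Monic → ∀ y : k', aeval y P = 0 →
      u y = c P ^ (finrank k k' / P.natDegree)) :
    ∑ y ∈ Finset.univ.filter (fun y : k' => (D.map (algebraMap k k')).eval y = 0), u y =
    ∑ P ∈ S, if P.natDegree ∣ finrank k k' then
      (P.natDegree : ℤ) * c P ^ (finrank k k' / P.natDegree) else 0 := by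
  have hfd : FiniteDimensional k k' := Module.Finite.of_finite
  have hint : ∀ y : k', IsIntegral k y := fun y => Algebra.IsIntegral.isIntegral y
  rw [← Finset.sum_fiberwise_of_maps_to (g := fun y : k' => minpoly k y) (t := S)]
  · refine Finset.sum_congr rfl fun P hP => ?_
    obtain ⟨hm, hirr, hdvd⟩ := (hS P).1 hP
    have h1 : (Finset.univ.filter (fun y : k' => (D.map (algebraMap k k')).eval y = 0)).filter
        (fun y => minpoly k y = P) = Finset.univ.filter (fun y : k' => minpoly k y = P) := by
      ext y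
      rw [Finset.mem_filter, Finset.mem_filter, Finset.mem_filter]
      constructor
      · rintro ⟨⟨h3, h4⟩, h5⟩
        exact ⟨h3, h5⟩
      · rintro ⟨h3, h4⟩
        refine ⟨⟨h3, ?_⟩, h4⟩
        rw [eval_map_algebraMap]
        obtain ⟨Q, hQ⟩ := hdvd
        rw [hQ, map_mul, ← h4, minpoly.aeval, zero_mul]
    rw [h1]
    have h3 : ∀ y ∈ Finset.univ.filter (fun y : k' => minpoly k y = P),
        u y = c P ^ (finrank k k' / P.natDegree) := by
      intro y hy
      rw [Finset.mem_filter] at hy
      exact huc P hirr hm y (by rw [← hy.2, minpoly.aeval])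
    rw [Finset.sum_congr rfl h3, Finset.sum_const, card_roots hirr hm, nsmul_eq_mul]
    split_ifs
    · rfl
    · simp
  · intro y hy
    rw [Finset.mem_filter, eval_map_algebraMap] at hy
    rw [hS]
    exact ⟨minpoly.monic (hint y), minpoly.irreducible (hint y), minpoly.dvd k y hy.2⟩

theorem dvd_iff {P : k[X]} (hP : Irreducible P) (hm : P.Monic) {y : k'} (hy : aeval y P = 0)
    (r : k[X]) : aeval y r = 0 ↔ P ∣ r := by
  have h1 : P = minpoly k y := minpoly.eq_of_irreducible_of_monic hP hy hm
  rw [h1]
  exact (minpoly.dvd_iff).symm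

theorem ee_root (h2 : (2 : k) ≠ 0) (f h : k[X]) {P : k[X]} (hP : Irreducible P) (hm : P.Monic)
    {y : k'} (hy : aeval y P = 0) :
    ee (f.map (algebraMap k k')) (h.map (algebraMap k k')) y =
      eps f h P ^ (finrank k k' / P.natDegree) := by
  unfold ee eps
  rw [eval_map_algebraMap, eval_map_algebraMap]
  have h5 := dvd_iff hP hm hy h
  by_cases h6 : P ∣ h
  · rw [if_pos h6, if_pos (h5.2 h6)]
    exact (qc_root h2 hP hy f).2
  · rw [if_neg h6, if_neg (fun h7 => h6 (h5.1 h7))]
    exact (qc_root h2 hP hy h).2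

theorem co_map {k'' : Type} [Field k''] (φ : k →+* k'') (f g h : k[X]) (i : ℕ) :
    (co f g h i).map φ = co (f.map φ) (g.map φ) (h.map φ) i := by
  unfold co
  simp only [Polynomial.map_add, Polynomial.map_mul, Polynomial.map_C, Polynomial.map_X,
    Polynomial.map_pow, coeff_map, map_mul, map_ofNat, Polynomial.map_ofNat]

theorem st_root (h2 : (2 : k) ≠ 0) (f g h : k[X]) {R : k[X]} (hR : Irreducible R) (hm : R.Monic)
    {y : k'} (hy : aeval y R = 0) :
    st (f.map (algebraMap k k')) (g.map (algebraMap k k')) (h.map (algebraMap k k')) y =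
      sig f g h R ^ (finrank k k' / R.natDegree) := by
  have hfd : FiniteDimensional k k' := Module.Finite.of_finite
  have hdvd := (qc_root (k' := k') h2 hR hy 1).1
  have hpos : finrank k k' / R.natDegree ≠ 0 := by
    have h1 : 0 < finrank k k' := finrank_pos
    exact (Nat.div_pos (Nat.le_of_dvd h1 hdvd) hR.natDegree_pos).ne'
  unfold st sq3 sig
  rw [← co_map, ← co_map, ← co_map, eval_map_algebraMap, eval_map_algebraMap, eval_map_algebraMap]
  have e2 := dvd_iff hR hm hy (co f g h 2)
  have e1 := dvd_iff hR hm hy (co f g h 1)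
  have e3 : (aeval y) (co f g h 1) ^ 2 - 4 * (aeval y) (co f g h 0) * (aeval y) (co f g h 2) = 0 ↔
      R ∣ co f g h 1 ^ 2 - 4 * co f g h 0 * co f g h 2 := by
    rw [← dvd_iff hR hm hy]
    simp only [map_sub, map_mul, map_pow, map_ofNat]
  by_cases c2 : R ∣ co f g h 2
  · rw [if_pos c2, if_pos (e2.2 c2)]
    by_cases c1 : R ∣ co f g h 1
    · rw [if_pos c1, if_pos (e1.2 c1)]
      exact (qc_root h2 hR hy _).2
    · rw [if_neg c1, if_neg (fun h => c1 (e1.1 h)), zero_pow hpos]
  · rw [if_neg c2, if_neg (fun h => c2 (e2.1 h))]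
    by_cases c1 : R ∣ co f g h 1 ^ 2 - 4 * co f g h 0 * co f g h 2
    · rw [if_pos c1, if_pos (e3.2 c1)]
      exact (qc_root h2 hR hy _).2
    · rw [if_neg c1, if_neg (fun h => c1 (e3.1 h)), zero_pow hpos]

/-- the contribution of infinity over an extension -/
theorem si_map [Fintype k] [DecidableEq k] (h2 : (2 : k) ≠ 0) (h : k[X]) :
    si (h.map (algebraMap k k')) = si h ^ finrank k k' := by
  have hfd : FiniteDimensional k k' := Module.Finite.of_finite
  have hpos : finrank k k' ≠ 0 := finrank_pos.ne'
  have hinj := (algebraMap k k').injective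
  have hq : ∀ c : k, quadraticChar k' (algebraMap k k' c) = quadraticChar k c ^ finrank k k' := by
    intro c
    by_cases hc : c = 0
    · rw [hc, map_zero, MulChar.map_zero, MulChar.map_zero, zero_pow hpos]
    · exact chi_ext h2 hc
  unfold si sq3
  have e1 : ∀ c : k, algebraMap k k' c = 0 ↔ c = 0 := fun c => map_eq_zero_iff _ hinj
  have e2 : algebraMap k k' (h.coeff 1) ^ 2 - 4 * algebraMap k k' (h.coeff 0) *
      algebraMap k k' (h.coeff 2) = 0 ↔ h.coeff 1 ^ 2 - 4 * h.coeff 0 * h.coeff 2 = 0 := by
    rw [← e1 (h.coeff 1 ^ 2 - 4 * h.coeff 0 * h.coeff 2)]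
    simp only [map_sub, map_mul, map_pow, map_ofNat]
  simp only [coeff_map, e1, e2]
  split_ifs
  · exact hq _
  · rw [zero_pow hpos]
  · exact hq _
  · rw [zero_pow hpos]
  · rw [zero_pow hpos]

end roots

end Pool.Agent.Y701.QG
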