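import Pool.Agent.Y701.QG.Roots

/-!
The `L`-function of `y ^ 2 = f(x) + 2 g(x) t + h(x) t ^ 2`.
-/

set_option autoImplicit false
set_option linter.all false
set_option maxHeartbeats 1000000

open Polynomial FF Module

namespace Pool.Agent.Y701.QG

open Pool.Agent.W343.BSD Pool.Agent.W309.RF Pool.Agent.Y701.CB Pool.Agent.Y701.QF

section exact

variable {k : Type} [Field k] [Finite k]

/-- The conditions on `f`, `g`, `h`. -/
structure Good (f g h : k[X]) : Prop where
  degf : f.natDegree ≤ 3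
  degg : g.natDegree ≤ 3
  degh : h.natDegree ≤ 3
  delta : g ^ 2 - f * h ≠ 0
  nc : NC (PA f g h) (PB f g h)
  disc : 4 * PA f g h ^ 3 + 27 * PB f g h ^ 2 ≠ 0

theorem PA_map {k' : Type} [Field k'] (φ : k →+* k') (f g h : k[X]) :
    (PA f g h).map φ = PA (f.map φ) (g.map φ) (h.map φ) := by
  unfold PA
  simp only [Polynomial.map_sub, Polynomial.map_mul, Polynomial.map_C, Polynomial.map_pow, co_map,
    map_div₀, map_one, map_ofNat]

theorem PB_map {k' : Type} [Field k'] (φ : k →+* k') (f g h : k[X]) :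
    (PB f g h).map φ = PB (f.map φ) (g.map φ) (h.map φ) := by
  unfold PB
  simp only [Polynomial.map_sub, Polynomial.map_add, Polynomial.map_mul, Polynomial.map_C,
    Polynomial.map_pow, co_map, map_div₀, map_one, map_ofNat]

theorem Good.co3 (h6 : (6 : k) ≠ 0) {f g h : k[X]} (hG : Good f g h) : co f g h 3 ≠ 0 := by
  intro h0
  apply hG.disc
  unfold PA PB
  rw [h0]
  have e : (C (2 / 27) : k[X]) = 2 * C (1 / 3) ^ 3 := by
    rw [show (2 : k[X]) = C 2 from rfl, ← C_pow, ← C_mul]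
    congr 1
    have h3 := three_ne h6
    rw [show (27 : k) = 3 ^ 3 by norm_num]
    field_simp
  have e3 : (3 : k[X]) * C (1 / 3) = 1 := by
    rw [show (3 : k[X]) = C 3 from rfl, ← C_mul, mul_one_div_cancel (three_ne h6), C_1]
  rw [e]
  linear_combination (4 * co f g h 2 ^ 6 * C (1 / 3) ^ 3 *
    (9 * C (1 / 3) ^ 2 + 3 * C (1 / 3) + 1)) * e3

theorem Good.map (h6 : (6 : k) ≠ 0) {k' : Type} [Field k'] [Finite k'] (φ : k →+* k')
    {f g h : k[X]} (hG : Good f g h) : Good (f.map φ) (g.map φ) (h.map φ) where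
  degf := (natDegree_map_le).trans hG.degf
  degg := (natDegree_map_le).trans hG.degg
  degh := (natDegree_map_le).trans hG.degh
  delta := by
    have e : g.map φ ^ 2 - f.map φ * h.map φ = (g ^ 2 - f * h).map φ := by
      simp only [Polynomial.map_sub, Polynomial.map_mul, Polynomial.map_pow]
    rw [e]
    exact (Polynomial.map_ne_zero_iff φ.injective).2 hG.delta
  nc := by
    rw [← PA_map, ← PB_map]
    exact hG.nc.map h6 φ
  disc := by
    have e : 4 * PA (f.map φ) (g.map φ) (h.map φ) ^ 3 + 27 * PB (f.map φ) (g.map φ) (h.map φ) ^ 2 =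
        (4 * PA f g h ^ 3 + 27 * PB f g h ^ 2).map φ := by
      rw [← PA_map, ← PB_map]
      simp only [Polynomial.map_add, Polynomial.map_mul, Polynomial.map_pow, Polynomial.map_ofNat]
    rw [e]
    exact (Polynomial.map_ne_zero_iff φ.injective).2 hG.disc

theorem A_disc (P Q : k[X]) : 4 * A P ^ 3 + 27 * A Q ^ 2 = A (4 * P ^ 3 + 27 * Q ^ 2) := by
  show _ = algebraMap k[X] (RatFunc k) _
  rw [map_add, map_mul, map_mul, map_pow, map_pow, map_ofNat, map_ofNat]

theorem Good.hΔ {f g h : k[X]} (hG : Good f g h) :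
    4 * A (PA f g h) ^ 3 + 27 * A (PB f g h) ^ 2 ≠ 0 := by
  rw [A_disc]
  exact A_ne hG.disc

/-- the power sums of the `L`-function -/
theorem pw_family [Fintype k] [DecidableEq k] (h6 : (6 : k) ≠ 0) {f g h : k[X]}
    (hG : Good f g h) {S T : Finset k[X]}
    (hS : ∀ P, P ∈ S ↔ P.Monic ∧ Irreducible P ∧ P ∣ g ^ 2 - f * h)
    (hT : ∀ P, P ∈ T ↔ P.Monic ∧ Irreducible P ∧ P ∣ co f g h 3) {n : ℕ} (hn : n ≠ 0) :
    PowerSeries.coeff n (pw (PowerSeries.map (Int.castRingHom ℂ)
      (Lfun k (A (PA f g h)) (A (PB f g h))))) =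
    (((Nat.card k : ℤ) ^ n * (si h ^ n + (∑ R ∈ T, if R.natDegree ∣ n then
      (R.natDegree : ℤ) * sig f g h R ^ (n / R.natDegree) else 0) -
      ∑ P ∈ S, if P.natDegree ∣ n then
      (P.natDegree : ℤ) * eps f h P ^ (n / P.natDegree) else 0) : ℤ) : ℂ) := by
  classical
  obtain ⟨p, hp⟩ := CharP.exists k
  have : Fact p.Prime := ⟨CharP.char_is_prime k p⟩
  haveI : NeZero n := ⟨hn⟩
  letI : Fintype (FiniteField.Extension k p n) := Fintype.ofFinite _
  have hfr : finrank k (FiniteField.Extension k p n) = n := FiniteField.finrank_extension k p n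
  set k' := FiniteField.Extension k p n with hk'
  have h2 := two_ne h6
  have h1 := coeff_pw_lfun k' h6 hG.hΔ
  rw [hfr] at h1
  rw [h1, ratHom_A, ratHom_A, PA_map, PB_map]
  have h6' : (6 : k') ≠ 0 := by
    have : (6 : k') = algebraMap k k' 6 := by rw [map_ofNat]
    rw [this]
    exact (_root_.map_ne_zero _).2 h6
  have hG' := hG.map h6 (algebraMap k k')
  rw [coeff_one_family h6' hG'.degf hG'.degg hG'.degh hG'.nc hG'.disc, si_map h2]
  have h3 := sum_roots_gen (k' := k') hG.delta hS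
    (ee (f.map (algebraMap k k')) (h.map (algebraMap k k'))) (eps f h)
    (fun P hP hm y hy => ee_root h2 f h hP hm hy)
  have h4 := sum_roots_gen (k' := k') (hG.co3 h6) hT
    (st (f.map (algebraMap k k')) (g.map (algebraMap k k')) (h.map (algebraMap k k')))
    (sig f g h) (fun P hP hm y hy => st_root h2 f g h hP hm hy)
  have e : g.map (algebraMap k k') ^ 2 - f.map (algebraMap k k') * h.map (algebraMap k k') =
      (g ^ 2 - f * h).map (algebraMap k k') := by
    simp only [Polynomial.map_sub, Polynomial.map_mul, Polynomial.map_pow]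
  rw [e]
  rw [co_map] at h4
  rw [hfr] at h3 h4 ⊢
  have hcard : (Fintype.card k' : ℤ) = (Nat.card k : ℤ) ^ n := by
    rw [← Nat.card_eq_fintype_card, Module.natCard_eq_pow_finrank (K := k) (V := k'), hfr]
    push_cast
    rfl
  rw [hcard, ← h3, ← h4]

theorem map_lin {R : Type*} [CommRing R] (φ : ℤ →+* R) (c : ℤ) (d : ℕ) :
    PowerSeries.map φ ((1 - C c * X ^ d : ℤ[X]) : PowerSeries ℤ) =
      1 - PowerSeries.C (φ c) * PowerSeries.X ^ d := by
  rw [Polynomial.coe_sub, Polynomial.coe_one, Polynomial.coe_mul, Polynomial.coe_C,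
    Polynomial.coe_pow, Polynomial.coe_X, map_sub, map_one, map_mul, map_pow, PowerSeries.map_C,
    PowerSeries.map_X]

theorem cc_lin {R : Type*} [CommRing R] (c : R) {d : ℕ} (hd : d ≠ 0) :
    PowerSeries.constantCoeff (1 - PowerSeries.C c * PowerSeries.X ^ d : PowerSeries R) = 1 := by
  rw [map_sub, map_one, map_mul, map_pow, PowerSeries.constantCoeff_X, zero_pow hd, mul_zero,
    sub_zero]

/-- the product of the factors -/
noncomputable def prodF (q : ℤ) (S : Finset k[X]) (c : k[X] → ℤ) : ℤ[X] :=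
  ∏ P ∈ S, (1 - C (c P * q ^ P.natDegree) * X ^ P.natDegree)

theorem map_prodF {R : Type*} [CommRing R] (φ : ℤ →+* R) (q : ℤ) (S : Finset k[X])
    (c : k[X] → ℤ) : PowerSeries.map φ (prodF q S c : PowerSeries ℤ) =
      ∏ P ∈ S, (1 - PowerSeries.C (φ (c P * q ^ P.natDegree)) *
        PowerSeries.X ^ P.natDegree) := by
  unfold prodF
  rw [coe_prod', map_prod]
  exact Finset.prod_congr rfl fun P _ => map_lin _ _ _

theorem cc_prodF {q : ℤ} {S : Finset k[X]} (hdeg : ∀ P ∈ S, P.natDegree ≠ 0) (c : k[X] → ℤ) :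
    PowerSeries.constantCoeff (PowerSeries.map (Int.castRingHom ℂ)
      (prodF q S c : PowerSeries ℤ)) = 1 := by
  rw [map_prodF, map_prod]
  exact Finset.prod_eq_one fun P hP => cc_lin _ (hdeg P hP)

theorem pw_prodF {q : ℤ} {S : Finset k[X]} (hdeg : ∀ P ∈ S, P.natDegree ≠ 0) (c : k[X] → ℤ)
    {n : ℕ} (hn : n ≠ 0) :
    PowerSeries.coeff n (pw (PowerSeries.map (Int.castRingHom ℂ)
      (prodF q S c : PowerSeries ℤ))) =
    -((q : ℂ) ^ n * ((∑ P ∈ S, if P.natDegree ∣ n then
      (P.natDegree : ℤ) * c P ^ (n / P.natDegree) else 0 : ℤ) : ℂ)) := by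
  rw [map_prodF, pw_prod _ _ fun P hP => by rw [cc_lin _ (hdeg P hP)]; exact one_ne_zero,
    map_sum, Finset.sum_congr rfl fun P hP => coeff_pw_lin (hdeg P hP) _ hn]
  have e : ∀ P ∈ S, (if P.natDegree ∣ n then
      -((P.natDegree : ℂ) * (Int.castRingHom ℂ) (c P * q ^ P.natDegree) ^
        (n / P.natDegree)) else 0) =
      -((q : ℂ) ^ n * (((if P.natDegree ∣ n then
        (P.natDegree : ℤ) * c P ^ (n / P.natDegree) else 0 : ℤ)) : ℂ)) := by
    intro P hP
    split_ifs with hd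
    · obtain ⟨m, hm⟩ := hd
      rw [hm, Nat.mul_div_cancel_left _ (Nat.pos_of_ne_zero (hdeg P hP))]
      simp only [eq_intCast]
      push_cast
      rw [mul_pow, ← pow_mul]
      ring
    · simp
  rw [Finset.sum_congr rfl e, Finset.sum_neg_distrib, ← Finset.mul_sum]
  push_cast
  rfl

/-- the exact `L`-function -/
theorem exact_lfun [Fintype k] [DecidableEq k] (h6 : (6 : k) ≠ 0) {f g h : k[X]}
    (hG : Good f g h) {S T : Finset k[X]}
    (hS : ∀ P, P ∈ S ↔ P.Monic ∧ Irreducible P ∧ P ∣ g ^ 2 - f * h)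
    (hT : ∀ P, P ∈ T ↔ P.Monic ∧ Irreducible P ∧ P ∣ co f g h 3) :
    Lfun k (A (PA f g h)) (A (PB f g h)) *
      (((1 - C (si h * (Nat.card k : ℤ)) * X) * prodF (Nat.card k : ℤ) T (sig f g h) : ℤ[X]) :
        PowerSeries ℤ) = (prodF (Nat.card k : ℤ) S (eps f h) : PowerSeries ℤ) := by
  have hinj : Function.Injective (PowerSeries.map (Int.castRingHom ℂ)) := by
    apply PowerSeries.map_injective
    exact RingHom.injective_int _
  apply hinj
  rw [Polynomial.coe_mul, map_mul, map_mul]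
  have hlin1 : PowerSeries.map (Int.castRingHom ℂ)
      ((1 - C (si h * (Nat.card k : ℤ)) * X : ℤ[X]) : PowerSeries ℤ) =
      1 - PowerSeries.C ((Int.castRingHom ℂ) (si h * (Nat.card k : ℤ))) * PowerSeries.X ^ 1 := by
    rw [← map_lin, pow_one]
  have hdegS : ∀ P ∈ S, P.natDegree ≠ 0 := fun P hP => ((hS P).1 hP).2.1.natDegree_pos.ne'
  have hdegT : ∀ P ∈ T, P.natDegree ≠ 0 := fun P hP => ((hT P).1 hP).2.1.natDegree_pos.ne'
  have hLc : PowerSeries.constantCoeff (PowerSeries.map (Int.castRingHom ℂ)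
      (Lfun k (A (PA f g h)) (A (PB f g h)))) = 1 := by
    rw [← PowerSeries.coeff_zero_eq_constantCoeff_apply, PowerSeries.coeff_map,
      PowerSeries.coeff_zero_eq_constantCoeff_apply, constantCoeff_lfun, map_one]
  have c1 := cc_lin ((Int.castRingHom ℂ) (si h * (Nat.card k : ℤ))) one_ne_zero
  have cT := cc_prodF (q := (Nat.card k : ℤ)) hdegT (sig f g h)
  have cS := cc_prodF (q := (Nat.card k : ℤ)) hdegS (eps f h)
  rw [hlin1]
  apply eq_of_pw
  · rw [map_mul, map_mul, hLc, c1, cT, one_mul, one_mul]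
  · exact cS
  · intro n hn
    rw [pw_mul (by rw [hLc]; exact one_ne_zero)
      (by rw [map_mul, c1, cT, one_mul]; exact one_ne_zero),
      pw_mul (by rw [c1]; exact one_ne_zero) (by rw [cT]; exact one_ne_zero), map_add, map_add,
      pw_family h6 hG hS hT hn, coeff_pw_lin one_ne_zero _ hn, if_pos (one_dvd n), Nat.div_one,
      pw_prodF hdegT _ hn, pw_prodF hdegS _ hn]
    simp only [eq_intCast]
    push_cast
    ring

end exact

end Pool.Agent.Y701.QG
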