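import Pool.Agent.Y701.QF.Deg1
import Pool.Agent.Y701.QF.Sum

/-!
The family `y ^ 2 = f(x) + 2 g(x) t + h(x) t ^ 2`, `f`, `g`, `h` of degree at most three.
-/

set_option autoImplicit false
set_option linter.all false
set_option maxHeartbeats 1000000

open Polynomial FF Module

namespace Pool.Agent.Y701.QG

open Pool.Agent.W343.BSD Pool.Agent.W309.RF Pool.Agent.Y701.CB Pool.Agent.Y701.QF

section poly

variable {k : Type} [Field k]

/-- the coefficient `f_i + 2 g_i t + h_i t ^ 2` of `x ^ i` -/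
noncomputable def co (f g h : k[X]) (i : ℕ) : k[X] :=
  C (f.coeff i) + C (2 * g.coeff i) * X + C (h.coeff i) * X ^ 2

/-- the first coefficient of the short form -/
noncomputable def PA (f g h : k[X]) : k[X] :=
  co f g h 1 * co f g h 3 - C (1 / 3) * co f g h 2 ^ 2

/-- the second coefficient of the short form -/
noncomputable def PB (f g h : k[X]) : k[X] :=
  co f g h 0 * co f g h 3 ^ 2 - C (1 / 3) * (co f g h 1 * co f g h 2 * co f g h 3) +
    C (2 / 27) * co f g h 2 ^ 3

theorem co_deg (f g h : k[X]) (i : ℕ) : (co f g h i).natDegree ≤ 2 := by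
  unfold co
  compute_degree

theorem three_ne (h6 : (6 : k) ≠ 0) : (3 : k) ≠ 0 := fun e => h6 (by linear_combination 2 * e)

theorem two_ne (h6 : (6 : k) ≠ 0) : (2 : k) ≠ 0 := fun e => h6 (by linear_combination 3 * e)

theorem mul_deg {p q : k[X]} {m n : ℕ} (hp : p.natDegree ≤ m) (hq : q.natDegree ≤ n) :
    (p * q).natDegree ≤ m + n := (natDegree_mul_le).trans (add_le_add hp hq)

theorem pow_deg {p : k[X]} {m : ℕ} (hp : p.natDegree ≤ m) (n : ℕ) :
    (p ^ n).natDegree ≤ n * m := (natDegree_pow_le).trans (Nat.mul_le_mul_left n hp)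

theorem PA_deg (f g h : k[X]) : (PA f g h).natDegree ≤ 4 := by
  unfold PA
  refine (natDegree_sub_le _ _).trans (max_le (mul_deg (co_deg f g h 1) (co_deg f g h 3)) ?_)
  exact (natDegree_C_mul_le _ _).trans (pow_deg (co_deg f g h 2) 2)

theorem PB_deg (f g h : k[X]) : (PB f g h).natDegree ≤ 6 := by
  unfold PB
  refine (natDegree_add_le _ _).trans (max_le ((natDegree_sub_le _ _).trans (max_le ?_ ?_)) ?_)
  · exact mul_deg (co_deg f g h 0) (pow_deg (co_deg f g h 3) 2)
  · exact (natDegree_C_mul_le _ _).trans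
      (mul_deg (mul_deg (co_deg f g h 1) (co_deg f g h 2)) (co_deg f g h 3))
  · exact (natDegree_C_mul_le _ _).trans (pow_deg (co_deg f g h 2) 3)

theorem co_coeff (f g h : k[X]) (i : ℕ) : (co f g h i).coeff 2 = h.coeff i := by
  unfold co
  simp [coeff_X, coeff_C]

theorem PA_four (f g h : k[X]) : (PA f g h).coeff 4 =
    h.coeff 1 * h.coeff 3 - 1 / 3 * h.coeff 2 ^ 2 := by
  unfold PA
  have e1 := coeff_mul_add_eq_of_natDegree_le (co_deg f g h 1) (co_deg f g h 3)
  have e2 := coeff_pow_of_natDegree_le (co_deg f g h 2) (m := 2)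
  rw [coeff_sub, coeff_C_mul]
  rw [show 2 + 2 = 4 by norm_num] at e1
  rw [show 2 * 2 = 4 by norm_num] at e2
  rw [e1, e2, co_coeff, co_coeff, co_coeff]

theorem PB_six (f g h : k[X]) : (PB f g h).coeff 6 =
    h.coeff 0 * h.coeff 3 ^ 2 - 1 / 3 * (h.coeff 1 * h.coeff 2 * h.coeff 3) +
      2 / 27 * h.coeff 2 ^ 3 := by
  unfold PB
  have e1 := coeff_mul_add_eq_of_natDegree_le (co_deg f g h 0) (pow_deg (co_deg f g h 3) 2)
  have e2 := coeff_pow_of_natDegree_le (co_deg f g h 3) (m := 2)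
  have e3 := coeff_mul_add_eq_of_natDegree_le (mul_deg (co_deg f g h 1) (co_deg f g h 2))
    (co_deg f g h 3)
  have e4 := coeff_mul_add_eq_of_natDegree_le (co_deg f g h 1) (co_deg f g h 2)
  have e5 := coeff_pow_of_natDegree_le (co_deg f g h 2) (m := 3)
  rw [coeff_add, coeff_sub, coeff_C_mul, coeff_C_mul]
  rw [show 2 + 2 * 2 = 6 by norm_num] at e1
  rw [show 2 + 2 + 2 = 6 by norm_num, show 2 + 2 = 4 by norm_num] at e3
  rw [show 2 + 2 = 4 by norm_num] at e4
  rw [show 3 * 2 = 6 by norm_num] at e5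
  rw [e1, show 2 * 2 = 2 * 2 from rfl, e2, e3, e4, e5, co_coeff, co_coeff, co_coeff, co_coeff]

end poly

section char

variable {F : Type} [Field F] [Fintype F] [DecidableEq F]

/-- the sign of `a x ^ 2 + b x + c` if it is a constant times a square, and `0` otherwise -/
noncomputable def sq3 (a b c : F) : ℤ :=
  if a = 0 then (if b = 0 then quadraticChar F c else 0)
  else (if b ^ 2 - 4 * c * a = 0 then quadraticChar F a else 0)

theorem sum_quad_sq3 (hF : ringChar F ≠ 2) (a b c : F) :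
    ∑ x : F, quadraticChar F (a * x ^ 2 + b * x + c) + quadraticChar F a =
      (Fintype.card F : ℤ) * sq3 a b c := by
  have h2 : (2 : F) ≠ 0 := Ring.two_ne_zero hF
  have h4 := quad_sum hF a (b / 2) c
  have h5 : ∑ y : F, quadraticChar F (a * y ^ 2 + b * y + c) =
      ∑ x : F, quadraticChar F (a * x ^ 2 + 2 * (b / 2) * x + c) := by
    refine Finset.sum_congr rfl fun x _ => ?_
    rw [mul_div_cancel₀ _ h2]
  rw [h5, h4]
  unfold sq3
  have h7 : (b / 2) ^ 2 - a * c = 0 ↔ b ^ 2 - 4 * c * a = 0 := by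
    have h44 : (4 : F) ≠ 0 := by
      rw [show (4 : F) = 2 * 2 by norm_num]; exact mul_ne_zero h2 h2
    have e : b ^ 2 - 4 * c * a = 4 * ((b / 2) ^ 2 - a * c) := by
      field_simp
      ring
    rw [e, mul_eq_zero, or_iff_right h44]
  have h8 : b / 2 = 0 ↔ b = 0 := by
    rw [div_eq_zero_iff, or_iff_left h2]
  simp only [h7, h8]
  by_cases c2 : a = 0
  · rw [if_pos c2, if_pos c2, c2, MulChar.map_zero, add_zero]
    split_ifs
    · rfl
    · ring
  · rw [if_neg c2, if_neg c2]
    split_ifs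
    · ring
    · ring

/-- the trace of the short form of `y ^ 2 = a x ^ 3 + b x ^ 2 + c x + d` -/
theorem sum_cubic (hF : ringChar F ≠ 2) (h3 : (3 : F) ≠ 0) (a b c d : F) :
    -∑ x : F, quadraticChar F (x ^ 3 + (c * a - 1 / 3 * b ^ 2) * x +
      (d * a ^ 2 - 1 / 3 * (c * b * a) + 2 / 27 * b ^ 3)) =
    -∑ x : F, quadraticChar F (a * x ^ 3 + b * x ^ 2 + c * x + d) +
      (if a = 0 then (Fintype.card F : ℤ) * sq3 b c d else 0) := by
  have e1 : ∑ x : F, quadraticChar F (x ^ 3 + (c * a - 1 / 3 * b ^ 2) * x +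
      (d * a ^ 2 - 1 / 3 * (c * b * a) + 2 / 27 * b ^ 3)) =
      ∑ y : F, quadraticChar F (y ^ 3 + b * y ^ 2 + c * a * y + d * a ^ 2) := by
    rw [← Equiv.sum_comp (Equiv.addRight (b / 3))]
    refine Finset.sum_congr rfl fun y _ => ?_
    congr 1
    rw [Equiv.coe_addRight, show (27 : F) = 3 ^ 3 by norm_num]
    field_simp
    ring
  rw [e1]
  by_cases ha : a = 0
  · rw [if_pos ha, ← sum_quad_sq3 hF]
    subst ha
    have h7 : ∀ y : F, quadraticChar F (y ^ 3 + b * y ^ 2 + c * 0 * y + d * 0 ^ 2) =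
        quadraticChar F (1 * y + b) - (if y = 0 then quadraticChar F b else 0) := by
      intro y
      split_ifs with hy
      · rw [hy]
        simp
      · rw [show y ^ 3 + b * y ^ 2 + c * 0 * y + d * 0 ^ 2 = (1 * y + b) * y ^ 2 by ring,
          map_mul, quadraticChar_sq_one' hy, mul_one, sub_zero]
    have h8 : ∀ x : F, (0 : F) * x ^ 3 + b * x ^ 2 + c * x + d = b * x ^ 2 + c * x + d := by
      intro x; ring
    simp_rw [h8]
    rw [Finset.sum_congr rfl fun y _ => h7 y, Finset.sum_sub_distrib,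
      sum_char_linear hF 1 _ one_ne_zero, Finset.sum_ite_eq' Finset.univ (0 : F),
      if_pos (Finset.mem_univ _)]
    ring
  · rw [if_neg ha, add_zero]
    congr 1
    rw [← Equiv.sum_comp (Equiv.mulLeft₀ a ha)]
    refine Finset.sum_congr rfl fun y _ => ?_
    have e : (Equiv.mulLeft₀ a ha y) ^ 3 + b * (Equiv.mulLeft₀ a ha y) ^ 2 +
        c * a * (Equiv.mulLeft₀ a ha y) + d * a ^ 2 =
        (a * y ^ 3 + b * y ^ 2 + c * y + d) * a ^ 2 := by
      show (a * y) ^ 3 + b * (a * y) ^ 2 + c * a * (a * y) + d * a ^ 2 = _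
      ring
    rw [e, map_mul, quadraticChar_sq_one' ha, mul_one]

end char

end Pool.Agent.Y701.QG
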