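import Pool.Agent.Y701.QG.Fam

/-!
The traces of the family at the places of degree one.
-/

set_option autoImplicit false
set_option linter.all false
set_option maxHeartbeats 1000000

open Polynomial FF Module

namespace Pool.Agent.Y701.QG

open Pool.Agent.W343.BSD Pool.Agent.W309.RF Pool.Agent.Y701.CB Pool.Agent.Y701.QF

/-- the curve `y ^ 2 = x ^ 3 + P x + Q` is not constant -/
def NC {k : Type} [Field k] (P Q : k[X]) : Prop :=
  ∀ (α β : k) (v : k[X]), v.natDegree ≤ 1 → ¬ (P = C α * v ^ 4 ∧ Q = C β * v ^ 6)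

section map

variable {k k' : Type} [Field k] [Field k']

theorem coeff_pow_lin (e : k) :
    ((X + C e) ^ 4 : k[X]).coeff 4 = 1 ∧ ((X + C e) ^ 4 : k[X]).coeff 3 = 4 * e ∧
    ((X + C e) ^ 6 : k[X]).coeff 6 = 1 ∧ ((X + C e) ^ 6 : k[X]).coeff 5 = 6 * e := by
  refine ⟨?_, ?_, ?_, ?_⟩ <;> rw [coeff_X_add_C_pow] <;> norm_num [Nat.choose] <;> ring

theorem NC.map (h6 : (6 : k) ≠ 0) (φ : k →+* k') {P Q : k[X]} (h : NC P Q) :
    NC (P.map φ) (Q.map φ) := by
  rintro α β v hv ⟨h1, h2⟩
  have h4 : (4 : k) ≠ 0 := by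
    rw [show (4 : k) = 2 * 2 by norm_num]
    exact mul_ne_zero (two_ne h6) (two_ne h6)
  obtain ⟨c, d, rfl⟩ : ∃ c d : k', v = C c * X + C d := ⟨_, _, eq_X_add_C_of_natDegree_le_one hv⟩
  by_cases hc : c = 0
  · rw [hc, C_0, zero_mul, zero_add, ← C_pow, ← C_mul] at h1 h2
    have e1 : P = C (P.coeff 0) := by
      apply eq_C_of_natDegree_eq_zero
      rw [← natDegree_map_eq_of_injective φ.injective P, h1, natDegree_C]
    have e2 : Q = C (Q.coeff 0) := by
      apply eq_C_of_natDegree_eq_zero
      rw [← natDegree_map_eq_of_injective φ.injective Q, h2, natDegree_C]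
    exact h (P.coeff 0) (Q.coeff 0) 1 (by rw [natDegree_one]; exact zero_le_one)
      ⟨by rw [one_pow, mul_one]; exact e1, by rw [one_pow, mul_one]; exact e2⟩
  · have ev : (C c * X + C d : k'[X]) = C c * (X + C (d / c)) := by
      rw [mul_add, ← C_mul, mul_div_cancel₀ _ hc]
    rw [ev, mul_pow, ← C_pow, ← mul_assoc, ← C_mul] at h1 h2
    set α' := α * c ^ 4 with hα
    set β' := β * c ^ 6 with hβ
    set e := d / c with he
    obtain ⟨q4, q3, q6, q5⟩ := coeff_pow_lin e
    have p4 : α' = φ (P.coeff 4) := by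
      rw [← coeff_map, h1, coeff_C_mul, q4, mul_one]
    have p3 : α' * (4 * e) = φ (P.coeff 3) := by
      rw [← coeff_map, h1, coeff_C_mul, q3]
    have p6 : β' = φ (Q.coeff 6) := by
      rw [← coeff_map, h2, coeff_C_mul, q6, mul_one]
    have p5 : β' * (6 * e) = φ (Q.coeff 5) := by
      rw [← coeff_map, h2, coeff_C_mul, q5]
    have key : ∃ e0 : k, e = φ e0 ∨ (α' = 0 ∧ β' = 0) := by
      by_cases hα0 : P.coeff 4 = 0
      · by_cases hβ0 : Q.coeff 6 = 0
        · exact ⟨0, Or.inr ⟨by rw [p4, hα0, map_zero], by rw [p6, hβ0, map_zero]⟩⟩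
        · refine ⟨Q.coeff 5 / (6 * Q.coeff 6), Or.inl ?_⟩
          rw [map_div₀, map_mul, map_ofNat, ← p5, ← p6]
          have n1 : β' ≠ 0 := by rw [p6]; exact (_root_.map_ne_zero φ).2 hβ0
          have n2 : (6 : k') ≠ 0 := by
            have := (_root_.map_ne_zero φ).2 h6
            rwa [map_ofNat] at this
          field_simp
      · refine ⟨P.coeff 3 / (4 * P.coeff 4), Or.inl ?_⟩
        rw [map_div₀, map_mul, map_ofNat, ← p3, ← p4]
        have n1 : α' ≠ 0 := by rw [p4]; exact (_root_.map_ne_zero φ).2 hα0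
        have n2 : (4 : k') ≠ 0 := by
          have := (_root_.map_ne_zero φ).2 h4
          rwa [map_ofNat] at this
        field_simp
    obtain ⟨e0, h7 | ⟨h7, h8⟩⟩ := key
    · apply h (P.coeff 4) (Q.coeff 6) (X + C e0) (by rw [natDegree_X_add_C])
      constructor
      · apply Polynomial.map_injective φ φ.injective
        rw [h1, p4, h7]
        simp only [Polynomial.map_mul, Polynomial.map_C, Polynomial.map_pow, Polynomial.map_add,
          Polynomial.map_X]
      · apply Polynomial.map_injective φ φ.injective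
        rw [h2, p6, h7]
        simp only [Polynomial.map_mul, Polynomial.map_C, Polynomial.map_pow, Polynomial.map_add,
          Polynomial.map_X]
    · rw [h7, C_0, zero_mul] at h1
      rw [h8, C_0, zero_mul] at h2
      have e1 : P = 0 := (Polynomial.map_eq_zero_iff φ.injective).1 h1
      have e2 : Q = 0 := (Polynomial.map_eq_zero_iff φ.injective).1 h2
      exact h 0 0 1 (by rw [natDegree_one]; exact zero_le_one)
        ⟨by rw [C_0, zero_mul]; exact e1, by rw [C_0, zero_mul]; exact e2⟩

end map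

section min

variable {k : Type} [Field k] [Finite k]

theorem min_pt {P Q : k[X]} (h4 : P.natDegree ≤ 4) (h6 : Q.natDegree ≤ 6) (hn : NC P Q) (τ : k) :
    IsMinScale (pt τ) (A P) (A Q) 1 := by
  refine ⟨one_ne_zero, ?_, ?_, ?_⟩
  · rw [one_pow, one_mul]; exact fin_reg (pt_fin τ) P
  · rw [one_pow, one_mul]; exact fin_reg (pt_fin τ) Q
  · rintro ⟨h1, h2⟩
    rw [one_pow, one_mul] at h1 h2
    obtain ⟨π, hm, hirr, hord, hnn, hdvd, hdeg'⟩ := fin_exists (pt_fin τ)
    have key : ∀ (p : k[X]) (n : ℕ), (A p = 0 ∨ (n : ℤ) ≤ (pt τ).ord (A p)) → π ^ n ∣ p := by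
      intro p n h
      by_cases hp : p = 0
      · rw [hp]; exact dvd_zero _
      have h' : (n : ℤ) ≤ (pt τ).ord (A p) := h.resolve_left (A_ne hp)
      obtain ⟨m, p', hp', hpp⟩ := WfDvdMonoid.max_power_factor hp hirr
      have hp0 : p' ≠ 0 := by
        rintro rfl
        exact hp' (dvd_zero _)
      have h1 : (pt τ).ord (A p') = 0 := by
        have h2 := (hdvd p' hp0).not.2 hp'
        have := hnn p' hp0
        omega
      have h2 : (pt τ).ord (A p) = m := by
        rw [hpp]
        show (pt τ).ord (algebraMap k[X] (RatFunc k) _) = _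
        rw [map_mul, map_pow]
        rw [(pt τ).ord_mul (pow_ne_zero m (A_ne hirr.ne_zero)) (A_ne hp0), (pt τ).ord_pow, h1,
          add_zero, hord, mul_one]
      rw [h2] at h'
      rw [hpp]
      exact (pow_dvd_pow π (by exact_mod_cast h')).mul_right _
    rw [pt_deg] at hdeg'
    have key2 : ∀ (p : k[X]) (n : ℕ), p.natDegree ≤ n → π ^ n ∣ p → ∃ α : k, p = C α * π ^ n := by
      rintro p n hpn ⟨s, rfl⟩
      by_cases hs : s = 0
      · exact ⟨0, by rw [hs]; simp⟩
      · rw [natDegree_mul (pow_ne_zero _ hirr.ne_zero) hs, natDegree_pow, ← hdeg', mul_one] at hpn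
        have h0 : s.natDegree = 0 := by omega
        refine ⟨s.coeff 0, ?_⟩
        rw [← eq_C_of_natDegree_eq_zero h0, mul_comm]
    obtain ⟨α, hα⟩ := key2 P 4 h4 (key P 4 (by exact_mod_cast h1))
    obtain ⟨β, hβ⟩ := key2 Q 6 h6 (key Q 6 (by exact_mod_cast h2))
    exact hn α β π hdeg'.ge ⟨hα, hβ⟩

theorem inf_X_ne : (RatFunc.X : RatFunc k) ≠ 0 := RatFunc.X_ne_zero

theorem ord_inf_scale (n : ℕ) {p : k[X]} (hp : p ≠ 0) :
    (infty k).ord ((RatFunc.X : RatFunc k)⁻¹ ^ n * A p) = n - p.natDegree := by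
  rw [(infty k).ord_mul (pow_ne_zero n (inv_ne_zero inf_X_ne)) (A_ne hp), (infty k).ord_pow,
    (infty k).ord_inv, inf_X infty_X, ord_inf_A hp]
  ring

theorem reg_inf_scale {n : ℕ} {p : k[X]} (hp : p.natDegree ≤ n) :
    (infty k).Reg ((RatFunc.X : RatFunc k)⁻¹ ^ n * A p) := by
  by_cases h : p = 0
  · left
    rw [h]
    show _ * algebraMap k[X] (RatFunc k) 0 = 0
    rw [map_zero, mul_zero]
  · right
    rw [ord_inf_scale n h]
    have : (p.natDegree : ℤ) ≤ n := by exact_mod_cast hp
    linarith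

theorem min_inf {P Q : k[X]} (h4 : P.natDegree ≤ 4) (h6 : Q.natDegree ≤ 6) (hn : NC P Q) :
    IsMinScale (infty k) (A P) (A Q) (RatFunc.X : RatFunc k)⁻¹ := by
  refine ⟨inv_ne_zero inf_X_ne, reg_inf_scale h4, reg_inf_scale h6, ?_⟩
  rintro ⟨h1, h2⟩
  have e1 : P.natDegree = 0 := by
    by_cases h : P = 0
    · rw [h, natDegree_zero]
    · have h3 := h1.resolve_left (A_ne h)
      rw [ord_inf_scale 4 h] at h3
      push_cast at h3
      omega
  have e2 : Q.natDegree = 0 := by
    by_cases h : Q = 0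
    · rw [h, natDegree_zero]
    · have h3 := h2.resolve_left (A_ne h)
      rw [ord_inf_scale 6 h] at h3
      push_cast at h3
      omega
  exact hn (P.coeff 0) (Q.coeff 0) 1 (by rw [natDegree_one]; exact zero_le_one)
    ⟨by rw [one_pow, mul_one]; exact eq_C_of_natDegree_eq_zero e1,
      by rw [one_pow, mul_one]; exact eq_C_of_natDegree_eq_zero e2⟩

theorem red_inf_scale {n : ℕ} {p : k[X]} (hp : p.natDegree ≤ n) :
    (infty k).red ((RatFunc.X : RatFunc k)⁻¹ ^ n * A p) =
      algebraMap k (infty k).RF (p.coeff n) := by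
  have hreg := reg_inf_scale hp
  set c := p.coeff n with hc
  have hcr := (infty k).reg_const c
  have e0 : algebraMap k (infty k).RF c = (infty k).red (algebraMap k (RatFunc k) c) := rfl
  rw [e0, ← sub_eq_zero, ← (infty k).red_sub hreg hcr]
  have hX : (RatFunc.X : RatFunc k) ≠ 0 := inf_X_ne
  have e : (RatFunc.X : RatFunc k)⁻¹ ^ n * A p - algebraMap k (RatFunc k) c =
      (RatFunc.X : RatFunc k)⁻¹ ^ n * A (p - C c * X ^ n) := by
    have : A (p - C c * X ^ n) = A p - algebraMap k (RatFunc k) c * RatFunc.X ^ n := by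
      show algebraMap k[X] (RatFunc k) _ = _
      rw [map_sub, map_mul, map_pow]
      show A p - A (C c) * (A (X : k[X])) ^ n = _
      rw [A_C, A_X]
    rw [this, mul_sub, mul_left_comm _ (algebraMap k (RatFunc k) c), ← mul_pow,
      inv_mul_cancel₀ hX, one_pow, mul_one]
  rw [e]
  by_cases h0 : p - C c * X ^ n = 0
  · rw [h0]
    have : A (0 : k[X]) = 0 := by
      show algebraMap k[X] (RatFunc k) 0 = 0
      rw [map_zero]
    rw [this, mul_zero, (infty k).red_zero]
  · have hlt : (p - C c * X ^ n).natDegree < n := by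
      by_contra hcon
      push Not at hcon
      have hle : (p - C c * X ^ n).natDegree ≤ n :=
        (natDegree_sub_le _ _).trans (max_le hp (natDegree_C_mul_X_pow_le c n))
      have heq : (p - C c * X ^ n).natDegree = n := le_antisymm hle hcon
      have h1 : (p - C c * X ^ n).leadingCoeff = 0 := by
        rw [leadingCoeff, heq, coeff_sub, coeff_C_mul, coeff_X_pow, if_pos rfl, mul_one, hc,
          sub_self]
      exact h0 (leadingCoeff_eq_zero.1 h1)
    rw [(infty k).red_eq_zero_iff (reg_inf_scale hlt.le)]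
    right
    rw [ord_inf_scale n h0]
    have : ((p - C c * X ^ n).natDegree : ℤ) < n := by exact_mod_cast hlt
    linarith

end min

section value

variable {k : Type} [Field k] [Finite k] [Fintype k] [DecidableEq k]

theorem eval_cubic {f : k[X]} (hf : f.natDegree ≤ 3) (y : k) :
    f.eval y = f.coeff 3 * y ^ 3 + f.coeff 2 * y ^ 2 + f.coeff 1 * y + f.coeff 0 := by
  rw [eval_eq_sum_range' (n := 4) (by omega)]
  simp only [Finset.sum_range_succ, Finset.sum_range_zero]
  ring

/-- the character `η(h(y))`, or `η(f(y))` if `h(y) = 0` -/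
noncomputable def ee (f h : k[X]) (y : k) : ℤ :=
  if h.eval y = 0 then quadraticChar k (f.eval y) else quadraticChar k (h.eval y)

/-- the sign of `F(x, τ)` -/
noncomputable def st (f g h : k[X]) (τ : k) : ℤ :=
  sq3 ((co f g h 2).eval τ) ((co f g h 1).eval τ) ((co f g h 0).eval τ)

/-- the sign of `F(x, ∞)` -/
noncomputable def si (h : k[X]) : ℤ :=
  if h.coeff 3 = 0 then sq3 (h.coeff 2) (h.coeff 1) (h.coeff 0) else 0

/-- the first coefficient of the `L`-function -/
theorem coeff_one_family (h6 : (6 : k) ≠ 0) {f g h : k[X]} (hf : f.natDegree ≤ 3)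
    (hg : g.natDegree ≤ 3) (hh : h.natDegree ≤ 3) (hn : NC (PA f g h) (PB f g h))
    (hD : 4 * PA f g h ^ 3 + 27 * PB f g h ^ 2 ≠ 0) :
    PowerSeries.coeff 1 (Lfun k (A (PA f g h)) (A (PB f g h))) =
      (Fintype.card k : ℤ) * (si h + ∑ τ ∈ Finset.univ.filter
        (fun τ : k => (co f g h 3).eval τ = 0), st f g h τ - ∑ y ∈ Finset.univ.filter
        (fun y : k => (g ^ 2 - f * h).eval y = 0), ee f h y) := by
  have h3 := three_ne h6
  have h2 := two_ne h6
  have hchar := ringChar_ne_two h6
  have hab : A (PA f g h) ≠ 0 ∨ A (PB f g h) ≠ 0 := by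
    by_contra hcon
    push Not at hcon
    apply hD
    have e1 : PA f g h = 0 := by
      by_contra h1
      exact A_ne h1 hcon.1
    have e2 : PB f g h = 0 := by
      by_contra h1
      exact A_ne h1 hcon.2
    rw [e1, e2]
    ring
  rw [coeff_one_lfun, sum_deg_one]
  -- the finite places
  have hpt : ∀ τ : k, trace (pt τ) (A (PA f g h)) (A (PB f g h)) =
      -∑ y : k, quadraticChar k (h.eval y * τ ^ 2 + 2 * g.eval y * τ + f.eval y) +
        (Fintype.card k : ℤ) * (if (co f g h 3).eval τ = 0 then st f g h τ else 0) := by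
    intro τ
    have h1 := trace_deg_one h6 (pt_deg τ) hab (min_pt (PA_deg f g h) (PB_deg f g h) hn τ)
      (α := (PA f g h).eval τ) (β := (PB f g h).eval τ)
      (by rw [one_pow, one_mul, red_pt]) (by rw [one_pow, one_mul, red_pt])
    have e1 : (PA f g h).eval τ = (co f g h 1).eval τ * (co f g h 3).eval τ -
        1 / 3 * (co f g h 2).eval τ ^ 2 := by
      unfold PA
      simp only [eval_sub, eval_mul, eval_C, eval_pow]
    have e2 : (PB f g h).eval τ = (co f g h 0).eval τ * (co f g h 3).eval τ ^ 2 -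
        1 / 3 * ((co f g h 1).eval τ * (co f g h 2).eval τ * (co f g h 3).eval τ) +
        2 / 27 * (co f g h 2).eval τ ^ 3 := by
      unfold PB
      simp only [eval_sub, eval_mul, eval_C, eval_pow, eval_add]
    rw [h1, e1, e2, sum_cubic hchar h3]
    unfold st
    rw [mul_ite, mul_zero]
    congr 2
    refine Finset.sum_congr rfl fun y _ => ?_
    congr 1
    rw [eval_cubic hf, eval_cubic hg, eval_cubic hh]
    unfold co
    simp only [eval_add, eval_mul, eval_C, eval_pow, eval_X]
    ring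
  -- the place at infinity
  have hinf : trace (infty k) (A (PA f g h)) (A (PB f g h)) =
      -∑ y : k, quadraticChar k (h.eval y) + (Fintype.card k : ℤ) * si h := by
    have h1 := trace_deg_one h6 (inf_deg infty_X) hab
      (min_inf (PA_deg f g h) (PB_deg f g h) hn)
      (red_inf_scale (PA_deg f g h)) (red_inf_scale (PB_deg f g h))
    rw [h1, PA_four, PB_six, sum_cubic hchar h3]
    unfold si
    rw [mul_ite, mul_zero]
    congr 2
    refine Finset.sum_congr rfl fun y _ => ?_
    rw [eval_cubic hh]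
  rw [Finset.sum_congr rfl fun τ _ => hpt τ, hinf, Finset.sum_add_distrib, Finset.sum_neg_distrib,
    Finset.sum_comm, ← Finset.mul_sum, ← Finset.sum_filter]
  have hterm : ∀ y : k, ∑ τ : k, quadraticChar k (h.eval y * τ ^ 2 + 2 * g.eval y * τ + f.eval y) =
      (Fintype.card k : ℤ) * (if (g ^ 2 - f * h).eval y = 0 then ee f h y else 0) -
        quadraticChar k (h.eval y) := by
    intro y
    rw [quad_sum hchar (h.eval y) (g.eval y) (f.eval y)]
    have e : (g ^ 2 - f * h).eval y = g.eval y ^ 2 - h.eval y * f.eval y := by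
      simp only [eval_sub, eval_mul, eval_pow]
      ring
    rw [e]
    unfold ee
    by_cases hy : h.eval y = 0
    · rw [if_pos hy, if_pos hy, hy, zero_mul, sub_zero, MulChar.map_zero, sub_zero]
      by_cases hg0 : g.eval y = 0
      · rw [if_pos hg0, hg0, if_pos (by ring)]
      · rw [if_neg hg0, if_neg (pow_ne_zero 2 hg0), mul_zero]
    · rw [if_neg hy, if_neg hy]
      split_ifs
      · ring
      · ring
  rw [Finset.sum_congr rfl fun y _ => hterm y, Finset.sum_sub_distrib, ← Finset.mul_sum,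
    ← Finset.sum_filter (s := Finset.univ) (p := fun y : k => (g ^ 2 - f * h).eval y = 0)]
  ring

end value

end Pool.Agent.Y701.QG
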